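import Pool.Agent.H40.Dol.Defs
import Pool.Agent.H73.Dol.Fan

/-!
# MP_70580c_co: module M8 (reduction of the strictly convex case to the sector lemma), with the
fan reduction of `Pool.Agent.H73.Dol.Fan` in place of the separate KKM lemma.
-/

open Set Pointwise

namespace Pool.Agent.H73.DolM

open H40Dol Pool.Agent.H73.Dol

/-- the linear identification of `ℝ × ℝ` with the Euclidean plane -/
noncomputable def LL : (ℝ × ℝ) ≃ₗ[ℝ] E2 :=
  (LinearEquiv.finTwoArrow ℝ ℝ).symm ≪≫ₗ (WithLp.linearEquiv 2 ℝ (Fin 2 → ℝ)).symm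

/-- M4 as a hypothesis -/
def HM4 : Prop := ∀ K : Set (ℝ × ℝ), IsCompact K → StrictConvex ℝ K → (interior K).Nonempty →
  Nonempty (Config K)

/-- M7b as a hypothesis -/
def HM7 : Prop := ∀ K : Set (ℝ × ℝ), K.Nonempty → IsCompact K → Convex ℝ K →
  ∀ (C : Config K) (P : Fin 3 → Set (ℝ × ℝ)), (∀ i, (P i).Finite) → (∀ i, P i ⊆ C.S i) →
    (∀ i j, i ≠ j → ∀ p ∈ P i, ∀ q ∈ P j, p - q ∈ K - K) → ∃ i, Cov K (P i)

theorem strict_case_of (h4 : HM4) (h7 : HM7) (K : Set (ℝ × ℝ)) (hK : IsCompact K)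
    (hc : StrictConvex ℝ K) (hi : (interior K).Nonempty) (X : Fin 3 → Set (ℝ × ℝ))
    (hX : ∀ i, (X i).Finite)
    (hD : ∀ i j, i ≠ j → ∀ p ∈ X i, ∀ q ∈ X j, p - q ∈ K - K) :
    ∃ m, ∃ v : Fin 3 → ℝ × ℝ, ∀ x ∈ X m, ∃ i, x - v i ∈ K := by
  by_contra hcon
  push Not at hcon
  obtain ⟨C⟩ := h4 K hK hc hi
  have hne : K.Nonempty := hi.mono interior_subset
  have hno : ∀ k, ¬ ∃ v : Fin 3 → E2, (LL '' (X k)) ⊆ ⋃ i, (v i +ᵥ (LL '' K)) := by
    rintro k ⟨v, hv⟩
    obtain ⟨x, hx, hx'⟩ := hcon k (fun i => LL.symm (v i))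
    have h1 := hv (mem_image_of_mem LL hx)
    rw [mem_iUnion] at h1
    obtain ⟨i, hi'⟩ := h1
    obtain ⟨y, ⟨z, hz, rfl⟩, hy⟩ := hi'
    apply hx' i
    have h2 : v i + LL z = LL x := hy
    have h3 : x = LL.symm (v i) + z := by
      apply LL.injective
      rw [map_add, LL.apply_symm_apply, h2]
    rw [h3, add_sub_cancel_left]
    exact hz
  have hli : LinearIndependent ℝ ![LL (C.u 0), LL (C.u 1)] := by
    have h1 : LinearIndependent ℝ ![C.u 0, C.u 1] := by
      rw [LinearIndependent.pair_iff]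
      intro s t hst
      have hdt : 0 < dt (C.u 0) (C.u 1) := C.orient 2
      have e1 : s * (C.u 0).1 + t * (C.u 1).1 = 0 := congrArg Prod.fst hst
      have e2 : s * (C.u 0).2 + t * (C.u 1).2 = 0 := congrArg Prod.snd hst
      unfold dt at hdt
      constructor
      · have : s * ((C.u 0).1 * (C.u 1).2 - (C.u 0).2 * (C.u 1).1) = 0 := by
          linear_combination (C.u 1).2 * e1 - (C.u 1).1 * e2
        exact (mul_eq_zero.1 this).resolve_right hdt.ne'
      · have : t * ((C.u 0).1 * (C.u 1).2 - (C.u 0).2 * (C.u 1).1) = 0 := by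
          linear_combination (C.u 0).1 * e2 - (C.u 0).2 * e1
        exact (mul_eq_zero.1 this).resolve_right hdt.ne'
    have h2 := h1.map' LL.toLinearMap LL.ker
    have e : (LL.toLinearMap ∘ ![C.u 0, C.u 1]) = ![LL (C.u 0), LL (C.u 1)] := by
      funext i
      fin_cases i <;> rfl
    rw [e] at h2
    exact h2
  obtain ⟨c, π, hπ⟩ := fan_reduction (LL '' K) (fun k => LL '' (X k)) (fun k => (hX k).image LL)
    hno (fun i => LL (C.u i)) C.o C.opos (by
      rw [← map_smul, ← map_smul, ← map_smul, ← map_add, ← map_add, C.ocomb, map_zero]) hli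
  set c' : ℝ × ℝ := LL.symm c with hc'
  obtain ⟨i, v, hv⟩ := h7 K hne hK hc.convex C
    (fun i => (fun x => x - c') '' {x ∈ X (π.symm i) | x - c' ∈ C.S i})
    (fun i => ((hX _).subset (sep_subset _ _)).image _)
    (by
      rintro i p ⟨x, ⟨hx, hx'⟩, rfl⟩
      exact hx')
    (by
      rintro i j hij p ⟨x, ⟨hx, -⟩, rfl⟩ q ⟨y, ⟨hy, -⟩, rfl⟩
      have h1 := hD _ _ (fun h => hij (π.symm.injective h)) x hx y hy
      have h2 : x - c' - (y - c') = x - y := by abel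
      simp only [h2]
      exact h1)
  apply hπ (π.symm i)
  refine ⟨LL (c' + v), ?_⟩
  rintro z ⟨⟨x, hx, rfl⟩, hz⟩
  rw [π.apply_symm_apply] at hz
  obtain ⟨a, b, ha, hb, hab⟩ := hz
  have hxS : x - c' ∈ C.S i := by
    refine ⟨a, b, ha, hb, ?_⟩
    apply LL.injective
    rw [map_sub, hc', LL.apply_symm_apply, map_add, map_smul, map_smul]
    exact hab
  have h1 := hv (x - c') ⟨x, ⟨hx, hxS⟩, rfl⟩
  refine ⟨LL (x - c' - v), mem_image_of_mem LL h1, ?_⟩
  change LL (c' + v) + LL (x - c' - v) = LL x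
  rw [← map_add]
  congr 1
  abel

end Pool.Agent.H73.DolM
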