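import Pool.Agent.H40.Dol.Defs
import Pool.Agent.H40.Dol.M6

/-!
# MP_70580c_co: module M9 (from strictly convex bodies to all compact convex sets)
-/

open Set Pointwise

namespace Pool.Agent.H73.DolM

open H40Dol

/-- M8 as a hypothesis -/
def HM8 : Prop := ∀ K : Set (ℝ × ℝ), IsCompact K → StrictConvex ℝ K → (interior K).Nonempty →
  ∀ X : Fin 3 → Set (ℝ × ℝ), (∀ i, (X i).Finite) →
    (∀ i j, i ≠ j → ∀ p ∈ X i, ∀ q ∈ X j, p - q ∈ K - K) →
      ∃ m, ∃ v : Fin 3 → ℝ × ℝ, ∀ x ∈ X m, ∃ i, x - v i ∈ K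

/-- the Euclidean square of the norm -/
def nq (p : ℝ × ℝ) : ℝ := p.1 ^ 2 + p.2 ^ 2

theorem nq_cont : Continuous nq := by
  unfold nq
  fun_prop

theorem nq_nonneg (p : ℝ × ℝ) : 0 ≤ nq p := by
  unfold nq
  positivity

theorem nq_pos {p : ℝ × ℝ} (h : p ≠ 0) : 0 < nq p := by
  unfold nq
  by_contra hcon
  push Not at hcon
  apply h
  have h1 : p.1 = 0 := by nlinarith [sq_nonneg p.1, sq_nonneg p.2]
  have h2 : p.2 = 0 := by nlinarith [sq_nonneg p.1, sq_nonneg p.2]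
  exact Prod.ext h1 h2

theorem nq_comb (x y : ℝ × ℝ) (a b : ℝ) (hab : a + b = 1) :
    nq (a • x + b • y) = a * nq x + b * nq y - a * b * nq (x - y) := by
  have hb : b = 1 - a := by linarith
  subst hb
  unfold nq
  simp only [Prod.fst_add, Prod.snd_add, Prod.smul_fst, Prod.smul_snd, smul_eq_mul, Prod.fst_sub,
    Prod.snd_sub]
  ring

/-- the approximating bodies -/
def Ke (K : Set (ℝ × ℝ)) (R ε : ℝ) : Set (ℝ × ℝ) :=
  {x | ∃ y ∈ K, nq (x - y) + ε * nq x ≤ ε * R ^ 2}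

theorem Ke_open_sub (K : Set (ℝ × ℝ)) (R ε : ℝ) (x y : ℝ × ℝ) (hy : y ∈ K)
    (h : nq (x - y) + ε * nq x < ε * R ^ 2) : x ∈ interior (Ke K R ε) := by
  rw [mem_interior]
  refine ⟨{x | nq (x - y) + ε * nq x < ε * R ^ 2}, fun z hz => ⟨y, hy, le_of_lt hz⟩, ?_, h⟩
  apply isOpen_lt
  · exact (nq_cont.comp (continuous_id.sub continuous_const)).add (continuous_const.mul nq_cont)
  · exact continuous_const

theorem Ke_strict (K : Set (ℝ × ℝ)) (hc : Convex ℝ K) (R ε : ℝ) (hε : 0 < ε) :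
    StrictConvex ℝ (Ke K R ε) := by
  rintro x ⟨k, hk, hx⟩ y ⟨l, hl, hy⟩ hne a b ha hb hab
  refine Ke_open_sub K R ε _ (a • k + b • l) (hc hk hl ha.le hb.le hab) ?_
  have e : a • x + b • y - (a • k + b • l) = a • (x - k) + b • (y - l) := by module
  have hpos : 0 < nq (x - y) := nq_pos (sub_ne_zero.2 hne)
  have h1 : 0 < a * b * (ε * nq (x - y)) := by positivity
  have h2 : 0 ≤ a * b * nq (x - k - (y - l)) := by
    have := nq_nonneg (x - k - (y - l))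
    positivity
  have h3 := mul_le_mul_of_nonneg_left hx ha.le
  have h4 := mul_le_mul_of_nonneg_left hy hb.le
  have h5 : a * (ε * R ^ 2) + b * (ε * R ^ 2) = ε * R ^ 2 := by rw [← add_mul, hab, one_mul]
  rw [e, nq_comb _ _ a b hab, nq_comb x y a b hab]
  linarith

theorem Ke_compact (K : Set (ℝ × ℝ)) (hK : IsCompact K) (R ε : ℝ) (hε : 0 < ε) :
    IsCompact (Ke K R ε) := by
  set M : Set ((ℝ × ℝ) × (ℝ × ℝ)) := {m | m.2 ∈ K ∧ nq (m.1 - m.2) + ε * nq m.1 ≤ ε * R ^ 2}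
    with hM
  have h1 : Ke K R ε = Prod.fst '' M := by
    ext x
    constructor
    · rintro ⟨y, hy, h⟩
      exact ⟨(x, y), ⟨hy, h⟩, rfl⟩
    · rintro ⟨⟨x', y⟩, ⟨hy, h⟩, rfl⟩
      exact ⟨y, hy, h⟩
  rw [h1]
  apply IsCompact.image _ continuous_fst
  have hcl : IsClosed M := by
    have c1 : IsClosed {m : (ℝ × ℝ) × (ℝ × ℝ) | m.2 ∈ K} := hK.isClosed.preimage continuous_snd
    have c2 : IsClosed {m : (ℝ × ℝ) × (ℝ × ℝ) | nq (m.1 - m.2) + ε * nq m.1 ≤ ε * R ^ 2} :=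
      isClosed_le ((nq_cont.comp (continuous_fst.sub continuous_snd)).add
          (continuous_const.mul (nq_cont.comp continuous_fst))) continuous_const
    exact c1.inter c2
  have hsub : M ⊆ (Icc (-|R|) |R| ×ˢ Icc (-|R|) |R|) ×ˢ K := by
    rintro ⟨x, y⟩ ⟨hy, h⟩
    refine ⟨?_, hy⟩
    simp only at h hy
    have h2 := nq_nonneg (x - y)
    have h3 : nq x ≤ R ^ 2 := by
      by_contra hcon
      push Not at hcon
      nlinarith
    unfold nq at h3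
    rw [← sq_abs R] at h3
    have hR : 0 ≤ |R| := abs_nonneg R
    refine ⟨⟨?_, ?_⟩, ⟨?_, ?_⟩⟩ <;> simp only <;> nlinarith [sq_nonneg x.1, sq_nonneg x.2]
  exact ((isCompact_Icc.prod isCompact_Icc).prod hK).of_isClosed_subset hcl hsub

theorem Ke_mono (K : Set (ℝ × ℝ)) (R ε ε' : ℝ) (hε : 0 < ε) (h : ε ≤ ε') :
    Ke K R ε ⊆ Ke K R ε' := by
  rintro x ⟨y, hy, hx⟩
  refine ⟨y, hy, ?_⟩
  have h2 := nq_nonneg (x - y)
  have h3 : 0 ≤ R ^ 2 - nq x := by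
    by_contra hcon
    push Not at hcon
    nlinarith
  nlinarith

theorem sub_Ke (K : Set (ℝ × ℝ)) (R ε : ℝ) (hε : 0 < ε) (hR : ∀ x ∈ K, nq x < R ^ 2) :
    K ⊆ Ke K R ε := by
  intro x hx
  refine ⟨x, hx, ?_⟩
  have h1 : nq (x - x) = 0 := by simp [nq]
  rw [h1, zero_add]
  exact mul_le_mul_of_nonneg_left (hR x hx).le hε.le

theorem Ke_interior (K : Set (ℝ × ℝ)) (hne : K.Nonempty) (R ε : ℝ) (hε : 0 < ε)
    (hR : ∀ x ∈ K, nq x < R ^ 2) : (interior (Ke K R ε)).Nonempty := by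
  obtain ⟨x, hx⟩ := hne
  refine ⟨x, Ke_open_sub K R ε x x hx ?_⟩
  have h1 : nq (x - x) = 0 := by simp [nq]
  rw [h1, zero_add]
  exact mul_lt_mul_of_pos_left (hR x hx) hε

theorem pr_le_of_nq (a z : ℝ × ℝ) (d : ℝ) (hd : 0 ≤ d) (h : nq z ≤ d ^ 2) :
    pr a z ≤ (|a.1| + |a.2|) * d := by
  unfold nq at h
  have h1 : |z.1| ≤ d := abs_le_of_sq_le_sq (by nlinarith [sq_nonneg z.2]) hd
  have h2 : |z.2| ≤ d := abs_le_of_sq_le_sq (by nlinarith [sq_nonneg z.1]) hd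
  unfold pr
  have h3 : a.1 * z.1 ≤ |a.1| * d := by
    calc a.1 * z.1 ≤ |a.1 * z.1| := le_abs_self _
      _ = |a.1| * |z.1| := abs_mul _ _
      _ ≤ |a.1| * d := mul_le_mul_of_nonneg_left h1 (abs_nonneg _)
  have h4 : a.2 * z.2 ≤ |a.2| * d := by
    calc a.2 * z.2 ≤ |a.2 * z.2| := le_abs_self _
      _ = |a.2| * |z.2| := abs_mul _ _
      _ ≤ |a.2| * d := mul_le_mul_of_nonneg_left h2 (abs_nonneg _)
  nlinarith

theorem hs_ge (K : Set (ℝ × ℝ)) (hK : IsCompact K) (a : ℝ × ℝ) : ∀ p ∈ K, pr a p ≤ hs K a := by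
  intro p hp
  exact le_csSup (hK.image (M6.pr_continuous a)).bddAbove (mem_image_of_mem _ hp)

/-- a finite set coverable by all the bodies `Ke` is coverable by `K` -/
theorem cov_limit (K : Set (ℝ × ℝ)) (hne : K.Nonempty) (hK : IsCompact K) (hc : Convex ℝ K)
    (R : ℝ) (P : Set (ℝ × ℝ)) (hP : P.Finite) (h : ∀ ε > 0, Cov (Ke K R ε) P) : Cov K P := by
  by_contra hn
  obtain ⟨a, b, c, habc, p, hp, q, hq, r, hr, hlt⟩ := not_cov K hne hK hc P hP hn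
  set S : ℝ := (|a.1| + |a.2|) + (|b.1| + |b.2|) + (|c.1| + |c.2|) with hS
  have hS0 : 0 ≤ S := by positivity
  set δ : ℝ := pr a p + pr b q + pr c r - (hs K a + hs K b + hs K c) with hδ
  have hδ0 : 0 < δ := by linarith
  set R1 : ℝ := |R| + 1 with hR1
  have hR1p : 0 < R1 := by positivity
  set d : ℝ := δ / (2 * (S + 1)) with hd
  have hd0 : 0 < d := by positivity
  obtain ⟨v, hv⟩ := h ((d / R1) ^ 2) (by positivity)
  have hz : ∀ x ∈ P, ∃ y ∈ K, nq (x - v - y) ≤ d ^ 2 := by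
    intro x hx
    obtain ⟨y, hy, h1⟩ := hv x hx
    refine ⟨y, hy, ?_⟩
    have h2 := nq_nonneg (x - v)
    have h3 : 0 ≤ (d / R1) ^ 2 * nq (x - v) := by positivity
    have h4 : (d / R1) ^ 2 * R ^ 2 ≤ d ^ 2 := by
      rw [div_pow, div_mul_eq_mul_div, div_le_iff₀ (by positivity)]
      apply mul_le_mul_of_nonneg_left _ (sq_nonneg d)
      rw [← sq_abs R, hR1]
      nlinarith [abs_nonneg R]
    linarith
  obtain ⟨y1, hy1, k1⟩ := hz p hp
  obtain ⟨y2, hy2, k2⟩ := hz q hq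
  obtain ⟨y3, hy3, k3⟩ := hz r hr
  have e1 := pr_le_of_nq a _ d hd0.le k1
  have e2 := pr_le_of_nq b _ d hd0.le k2
  have e3 := pr_le_of_nq c _ d hd0.le k3
  have g1 := hs_ge K hK a y1 hy1
  have g2 := hs_ge K hK b y2 hy2
  have g3 := hs_ge K hK c y3 hy3
  have hsum : pr a v + pr b v + pr c v = 0 := by
    have : pr a v + pr b v + pr c v = pr (a + b + c) v := by
      simp only [pr, Prod.fst_add, Prod.snd_add]; ring
    rw [this, habc]
    simp [pr]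
  have f1 : pr a (p - v - y1) = pr a p - pr a v - pr a y1 := by
    simp only [pr, Prod.fst_sub, Prod.snd_sub]; ring
  have f2 : pr b (q - v - y2) = pr b q - pr b v - pr b y2 := by
    simp only [pr, Prod.fst_sub, Prod.snd_sub]; ring
  have f3 : pr c (r - v - y3) = pr c r - pr c v - pr c y3 := by
    simp only [pr, Prod.fst_sub, Prod.snd_sub]; ring
  have hfin : δ ≤ S * d := by
    rw [hδ, hS]
    linarith
  have : S * d < δ := by
    rw [hd, mul_div_assoc', div_lt_iff₀ (by positivity)]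
    nlinarith
  linarith

/-- M9: the theorem for all compact convex sets (from M8, by outer approximation). -/
theorem general_case_of (h8 : HM8) (K : Set (ℝ × ℝ)) (hne : K.Nonempty) (hK : IsCompact K)
    (hc : Convex ℝ K) (X : Fin 3 → Set (ℝ × ℝ)) (hX : ∀ i, (X i).Finite)
    (hD : ∀ i j, i ≠ j → ∀ p ∈ X i, ∀ q ∈ X j, p - q ∈ K - K) :
    ∃ m, ∃ v : Fin 3 → ℝ × ℝ, ∀ x ∈ X m, ∃ i, x - v i ∈ K := by
  classical
  -- a radius
  obtain ⟨R, hR⟩ : ∃ R : ℝ, ∀ x ∈ K, nq x < R ^ 2 := by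
    obtain ⟨M, hM⟩ := (hK.image nq_cont).bddAbove
    refine ⟨|M| + 1, fun x hx => ?_⟩
    have h1 := hM (mem_image_of_mem _ hx)
    have h2 := le_abs_self M
    nlinarith [abs_nonneg M]
  have : ∀ m, Finite (X m) := fun m => (hX m).to_subtype
  let ι := Σ m : Fin 3, (X m → Fin 3)
  let Pr : ι → ℝ → Prop := fun t ε => ∃ v : Fin 3 → ℝ × ℝ, ∀ x : X t.1, (x : ℝ × ℝ) - v (t.2 x) ∈
    Ke K R ε
  have hmono : ∀ t ε ε', 0 < ε → ε ≤ ε' → Pr t ε → Pr t ε' := by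
    rintro t ε ε' hε hle ⟨v, hv⟩
    exact ⟨v, fun x => Ke_mono K R ε ε' hε hle (hv x)⟩
  have hstrict : ∀ ε > 0, ∃ t, Pr t ε := by
    intro ε hε
    obtain ⟨m, v, hv⟩ := h8 (Ke K R ε) (Ke_compact K hK R ε hε) (Ke_strict K hc R ε hε)
      (Ke_interior K hne R ε hε hR) X hX (fun i j hij p hp q hq =>
        sub_subset_sub (sub_Ke K R ε hε hR) (sub_Ke K R ε hε hR) (hD i j hij p hp q hq))
    choose! σ hσ using hv
    exact ⟨⟨m, fun x => σ x⟩, v, fun x => hσ x x.2⟩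
  have hex : ∃ t, ∀ ε > 0, Pr t ε := by
    by_contra hcon
    push Not at hcon
    choose ε hε hno using hcon
    have : Nonempty ι := ⟨⟨0, fun _ => 0⟩⟩
    obtain ⟨t0, ht0⟩ := Finite.exists_min ε
    obtain ⟨t, ht⟩ := hstrict (ε t0) (hε t0)
    exact hno t (hmono t _ _ (hε t0) (ht0 t) ht)
  obtain ⟨⟨m, σ⟩, ht⟩ := hex
  have hcov : ∀ i : Fin 3, Cov K {x | ∃ h : x ∈ X m, σ ⟨x, h⟩ = i} := by
    intro i
    apply cov_limit K hne hK hc R _ ((hX m).subset (fun x hx => hx.1))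
    intro ε hε
    obtain ⟨v, hv⟩ := ht ε hε
    refine ⟨v i, ?_⟩
    rintro x ⟨hx, hxi⟩
    have := hv ⟨x, hx⟩
    rw [← hxi]
    exact this
  choose v hv using hcov
  exact ⟨m, v, fun x hx => ⟨σ ⟨x, hx⟩, hv _ x ⟨hx, rfl⟩⟩⟩

end Pool.Agent.H73.DolM
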